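import Pool.Agent.Helper35.PQF.St

/-!
# Project PM (MP_d112a4_gt), module AV2: averages along a holomorphic disc
-/

set_option autoImplicit false

open Filter Topology Matrix Set MeasureTheory
open scoped ENNReal ComplexOrder

namespace Helper86.PM

open Pool.Agent.Helper35.PM

theorem av2 (hs2 : St_HS2) (hl : St_HL) : St_AV2 := by
  intro Γ _ f hf hF p hp T
  classical
  -- lengths are nonnegative
  have hnn : ∀ (A : SL), 0 ≤ tl A := fun A => (hs2.2.2.1 A).1
  -- a holomorphic function for every class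
  have hc : ∀ c : ConjClasses Γ, ∃ G : ℂ → ℂ, DifferentiableOn ℂ G (Metric.ball 0 1) ∧
      ∀ z ∈ Metric.ball (0 : ℂ) 1, (G z).re = len (f z) c := by
    intro c
    by_cases hfin : ∃ n : ℕ, 1 ≤ n ∧ (Quotient.out c : Γ) ^ n = 1
    · refine ⟨fun _ => 0, differentiableOn_const _, fun z hz => ?_⟩
      have h := ((hF z hz).2.2.2.2.2.1 (Quotient.out c)).2 hfin
      show (0 : ℂ).re = tl (f z (Quotient.out c))
      rw [h]
      rfl
    · obtain ⟨G, hG, hG2⟩ := hl (fun z => f z (Quotient.out c))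
        (fun i j => hf (Quotient.out c) i j) (fun z hz => by
          refine lt_of_le_of_ne (hnn _) fun h => hfin ?_
          exact ((hF z hz).2.2.2.2.2.1 (Quotient.out c)).1 h.symm)
      exact ⟨G, hG, fun z hz => hG2 z hz⟩
  choose G hG hG2 using hc
  have hfin : (classes (f p) T).Finite := (hF p hp).1 T
  refine ⟨fun z => (∑ c ∈ hfin.toFinset, G c z * ((len (f p) c)⁻¹ : ℝ)) *
    (((num (f p) T : ℝ)⁻¹ : ℝ) : ℂ), ?_, ?_⟩
  · refine DifferentiableOn.mul_const ?_ _
    refine DifferentiableOn.fun_sum fun c _ => ?_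
    exact (hG c).mul_const _
  · intro z hz
    have hre : ((∑ c ∈ hfin.toFinset, G c z * ((len (f p) c)⁻¹ : ℝ)) *
        (((num (f p) T : ℝ)⁻¹ : ℝ) : ℂ)).re = avg (f p) (f z) T := by
      rw [Complex.re_mul_ofReal, Complex.re_sum]
      unfold avg
      rw [finsum_mem_eq_finite_toFinset_sum _ hfin, div_eq_mul_inv]
      congr 1
      refine Finset.sum_congr rfl fun c _ => ?_
      rw [Complex.re_mul_ofReal, hG2 c z hz, div_eq_mul_inv]
    refine ⟨hre, ?_⟩
    rw [hre]
    unfold avg
    rw [finsum_mem_eq_finite_toFinset_sum _ hfin]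
    refine div_nonneg (Finset.sum_nonneg fun c _ => div_nonneg (hnn _) (hnn _)) ?_
    exact Nat.cast_nonneg _

end Helper86.PM
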