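import Pool.Agent.Helper35.PQF.St

/-!
# Project PM (MP_d112a4_gt), module CS: Cauchy-Schwarz
-/

set_option autoImplicit false

open Filter Topology Matrix Set MeasureTheory
open scoped ENNReal ComplexOrder

namespace Helper86.PM

open Pool.Agent.Helper35.PM

theorem cs : St_CS := by
  intro q k a b hq hk hk0
  refine ⟨fun t => q t ^ (1 / 2 : ℝ), hq.pow_const _, fun t => ?_, ?_⟩
  · rw [← ENNReal.rpow_natCast, ← ENNReal.rpow_mul]
    norm_num
  · have h1 : ∫⁻ t in Ioo a b, q t ^ (1 / 2 : ℝ) =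
        ∫⁻ t in Ioo a b, ((fun t => (k t * q t) ^ (1 / 2 : ℝ)) *
          (fun t => ((k t)⁻¹) ^ (1 / 2 : ℝ))) t := by
      refine setLIntegral_congr_fun measurableSet_Ioo (fun t ht => ?_)
      simp only [Pi.mul_apply]
      rw [← ENNReal.mul_rpow_of_nonneg _ _ (by norm_num : (0 : ℝ) ≤ 1 / 2)]
      congr 1
      rw [mul_right_comm, ENNReal.mul_inv_cancel (hk0 t ht).1 (hk0 t ht).2, one_mul]
    have h2 := ENNReal.lintegral_mul_le_Lp_mul_Lq (volume.restrict (Ioo a b))
      Real.HolderConjugate.two_two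
      (f := fun t => (k t * q t) ^ (1 / 2 : ℝ)) (g := fun t => ((k t)⁻¹) ^ (1 / 2 : ℝ))
      ((hk.mul hq).pow_const _).aemeasurable (hk.inv.pow_const _).aemeasurable
    have h3 : ∀ x : ℝ≥0∞, (x ^ (1 / 2 : ℝ)) ^ (2 : ℝ) = x := by
      intro x
      rw [← ENNReal.rpow_mul]
      norm_num
    rw [h1]
    simpa only [h3] using h2

end Helper86.PM
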