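import Pool.Agent.Helper35.PQF.St

/-!
# Project PM (MP_d112a4_gt), module GE1: geodesic inequalities
-/

set_option autoImplicit false

open Filter Topology Matrix Set MeasureTheory
open scoped ENNReal ComplexOrder

namespace Helper86.PM

open Pool.Agent.Helper35.PM

theorem cosh_ne (x : ℝ) : Real.cosh x ≠ 0 := (Real.cosh_pos x).ne'

theorem tanh_abs_lt (x : ℝ) : |Real.tanh x| < 1 := by
  rw [Real.tanh_eq_sinh_div_cosh, abs_div, abs_of_pos (Real.cosh_pos x),
    div_lt_one (Real.cosh_pos x), abs_lt]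
  have h1 := Real.cosh_sq x
  have h2 := Real.cosh_pos x
  constructor <;> nlinarith [Real.sinh_sq x]

theorem tanh_add' (x y : ℝ) :
    Real.tanh (x + y) = (Real.tanh y + Real.tanh x) / (1 + Real.tanh x * Real.tanh y) := by
  have hx := cosh_ne x
  have hy := cosh_ne y
  have hxy := cosh_ne (x + y)
  have h1 : 1 + Real.tanh x * Real.tanh y =
      Real.cosh (x + y) / (Real.cosh x * Real.cosh y) := by
    rw [Real.tanh_eq_sinh_div_cosh, Real.tanh_eq_sinh_div_cosh, Real.cosh_add]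
    field_simp
  have h2 : Real.tanh y + Real.tanh x = Real.sinh (x + y) / (Real.cosh x * Real.cosh y) := by
    rw [Real.tanh_eq_sinh_div_cosh, Real.tanh_eq_sinh_div_cosh, Real.sinh_add]
    field_simp
    ring
  rw [h1, h2, Real.tanh_eq_sinh_div_cosh]
  field_simp

theorem tanh_exp (x : ℝ) : (1 + Real.tanh x) / (1 - Real.tanh x) = Real.exp (2 * x) := by
  have hx := cosh_ne x
  have h1 : 1 + Real.tanh x = Real.exp x / Real.cosh x := by
    rw [Real.tanh_eq_sinh_div_cosh, ← Real.cosh_add_sinh]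
    field_simp
  have h2 : 1 - Real.tanh x = Real.exp (-x) / Real.cosh x := by
    rw [Real.tanh_eq_sinh_div_cosh, ← Real.cosh_sub_sinh]
    field_simp
  rw [h1, h2, div_div_div_cancel_right₀ hx, ← Real.exp_sub]
  congr 1
  ring

theorem tanh_cosh (x : ℝ) :
    (1 + Real.tanh x ^ 2) / (1 - Real.tanh x ^ 2) = Real.cosh (2 * x) := by
  have hx := cosh_ne x
  have h1 : 1 - Real.tanh x ^ 2 = 1 / Real.cosh x ^ 2 := by
    rw [Real.tanh_eq_sinh_div_cosh, div_pow, Real.sinh_sq]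
    field_simp
    ring
  have h2 : 1 + Real.tanh x ^ 2 = Real.cosh (2 * x) / Real.cosh x ^ 2 := by
    rw [Real.tanh_eq_sinh_div_cosh, div_pow, Real.cosh_two_mul]
    field_simp
  rw [h1, h2, div_div_div_cancel_right₀ (pow_ne_zero 2 hx), div_one]

theorem zt_norm (t : ℝ) : ‖zt t‖ = |Real.tanh (t / 2)| := by
  unfold zt
  rw [Complex.norm_real, Real.norm_eq_abs]

theorem zt_mem (t : ℝ) : zt t ∈ Metric.ball (0 : ℂ) 1 := by
  rw [mem_ball_zero_iff, zt_norm]
  exact tanh_abs_lt _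

theorem zt_neg (t : ℝ) : zt (-t) = -zt t := by
  unfold zt
  rw [neg_div, Real.tanh_neg]
  push_cast
  rfl

theorem zt_exp (d : ℝ) : (1 + ‖zt d‖) / (1 - ‖zt d‖) = Real.exp |d| := by
  have h : ‖zt d‖ = Real.tanh (|d| / 2) := by
    rw [zt_norm]
    rcases abs_cases d with ⟨h1, h2⟩ | ⟨h1, h2⟩
    · rw [h1]
      refine abs_of_nonneg ?_
      rw [Real.tanh_eq_sinh_div_cosh]
      exact div_nonneg (Real.sinh_nonneg_iff.2 (by linarith)) (Real.cosh_pos _).le
    · rw [h1, neg_div, Real.tanh_neg]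
      refine abs_of_nonpos ?_
      rw [Real.tanh_eq_sinh_div_cosh]
      exact div_nonpos_of_nonpos_of_nonneg (Real.sinh_nonpos_iff.2 (by linarith))
        (Real.cosh_pos _).le
  rw [h, tanh_exp]
  congr 1
  ring

theorem zt_cosh (d : ℝ) : (1 + ‖zt d‖ ^ 2) / (1 - ‖zt d‖ ^ 2) = Real.cosh d := by
  rw [zt_norm, sq_abs, tanh_cosh]
  congr 1
  ring

/-- The Moebius map. -/
noncomputable def mb (a : ℝ) (z : ℂ) : ℂ := (z + a) / (1 + a * z)

theorem mb_ne {a : ℝ} (ha : |a| < 1) {z : ℂ} (hz : z ∈ Metric.ball (0 : ℂ) 1) :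
    (1 : ℂ) + a * z ≠ 0 := by
  intro h
  have h1 : (a : ℂ) * z = -1 := by linear_combination h
  have h2 : ‖(a : ℂ) * z‖ = 1 := by rw [h1]; simp
  rw [norm_mul, Complex.norm_real, Real.norm_eq_abs] at h2
  rw [mem_ball_zero_iff] at hz
  have h3 : |a| * ‖z‖ < 1 := by
    have := norm_nonneg z
    have := abs_nonneg a
    nlinarith
  linarith

theorem mb_mem {a : ℝ} (ha : |a| < 1) {z : ℂ} (hz : z ∈ Metric.ball (0 : ℂ) 1) :
    mb a z ∈ Metric.ball (0 : ℂ) 1 := by
  have hne := mb_ne ha hz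
  rw [mem_ball_zero_iff] at hz ⊢
  unfold mb
  rw [norm_div, div_lt_one (norm_pos_iff.2 hne)]
  have h1 : ‖z + a‖ ^ 2 < ‖(1 : ℂ) + a * z‖ ^ 2 := by
    rw [← Complex.normSq_eq_norm_sq, ← Complex.normSq_eq_norm_sq, Complex.normSq_apply,
      Complex.normSq_apply]
    have h2 : z.re * z.re + z.im * z.im < 1 := by
      have := Complex.normSq_apply z
      rw [← this, Complex.normSq_eq_norm_sq]
      have := norm_nonneg z
      nlinarith
    have h3 : a * a < 1 := by
      have := abs_lt.1 ha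
      nlinarith
    simp only [Complex.add_re, Complex.add_im, Complex.ofReal_re, Complex.ofReal_im,
      Complex.mul_re, Complex.mul_im, Complex.one_re, Complex.one_im]
    nlinarith
  exact lt_of_pow_lt_pow_left₀ 2 (norm_nonneg _) h1

theorem mb_zero (t : ℝ) : mb (Real.tanh (t / 2)) 0 = zt t := by
  unfold mb zt
  simp

theorem mb_zt (t d : ℝ) : mb (Real.tanh (t / 2)) (zt d) = zt (t + d) := by
  unfold mb zt
  rw [show (t + d) / 2 = t / 2 + d / 2 by ring, tanh_add']
  push_cast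
  rfl

theorem mb_diff {a : ℝ} (ha : |a| < 1) : DifferentiableOn ℂ (mb a) (Metric.ball 0 1) := by
  intro z hz
  have hne := mb_ne ha hz
  have h1 : DifferentiableAt ℂ (fun z : ℂ => z + (a : ℂ)) z := by fun_prop
  have h2 : DifferentiableAt ℂ (fun z : ℂ => (1 : ℂ) + (a : ℂ) * z) z := by fun_prop
  exact (h1.fun_div h2 hne).differentiableWithinAt

theorem ge1 (hk : St_HK) : St_GE1 := by
  intro u j ⟨hu, hG⟩
  -- the function of `Pot` moved to `0`
  have key : ∀ t : ℝ, ∃ F : ℂ → ℂ, DifferentiableOn ℂ F (Metric.ball 0 1) ∧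
      (∀ d : ℝ, (F (zt d)).re = j (zt t) (zt (t + d)) * u (zt (t + d)) ∧
        u (zt (t + d)) ≤ (F (zt d)).re) ∧
      (∀ z ∈ Metric.ball (0 : ℂ) 1, 1 / 2 ≤ (F z).re) ∧ (F 0).re = u (zt t) := by
    intro t
    obtain ⟨G, hd, hG1, hG2⟩ := hG (zt t) (zt_mem t)
    have ha := tanh_abs_lt (t / 2)
    refine ⟨fun z => G (mb (Real.tanh (t / 2)) z), ?_, ?_, ?_, ?_⟩
    · exact hd.comp (mb_diff ha) (fun z hz => mb_mem ha hz)
    · intro d
      have h1 := hG1 _ (zt_mem (t + d))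
      simp only [mb_zt]
      exact h1
    · intro z hz
      have h1 := mb_mem ha hz
      exact (hu _ h1).trans (hG1 _ h1).2
    · simp only [mb_zero]
      exact hG2
  have hj : ∀ s t : ℝ, 1 ≤ j (zt t) (zt s) := by
    intro s t
    obtain ⟨F, -, h1, -, -⟩ := key t
    have h2 := h1 (s - t)
    rw [add_sub_cancel] at h2
    have h3 := hu _ (zt_mem s)
    rw [h2.1] at h2
    have h4 := h2.2
    by_contra h5
    push Not at h5
    nlinarith
  have hz0 : (0 : ℂ) ∈ Metric.ball (0 : ℂ) 1 := by simp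
  refine ⟨?_, ?_, ?_, fun s t => ⟨hj s t, hu _ (zt_mem s)⟩⟩
  · intro s t
    obtain ⟨F, hd, h1, h2, h3⟩ := key t
    have h4 := h1 (s - t)
    rw [add_sub_cancel] at h4
    have h5 := (hk F hd (fun z hz => le_trans (by norm_num) (h2 z hz)) _ (zt_mem (s - t))).1
    rw [zt_exp, h3] at h5
    exact h4.2.trans h5
  · intro s t
    obtain ⟨F, hd, h1, h2, h3⟩ := key t
    have h4 := h1 (s - t)
    rw [add_sub_cancel] at h4
    have h5 := (hk (fun z => F z - ((1 / 2 : ℝ) : ℂ)) (hd.sub_const _) (fun z hz => by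
      rw [Complex.sub_re, Complex.ofReal_re]
      linarith [h2 z hz]) _ (zt_mem (s - t))).1
    rw [zt_exp, Complex.sub_re, Complex.sub_re, Complex.ofReal_re, h3] at h5
    linarith [h4.2]
  · intro t δ _
    obtain ⟨F, hd, h1, h2, h3⟩ := key t
    have h5 := (hk (fun z => F z - ((1 / 2 : ℝ) : ℂ)) (hd.sub_const _) (fun z hz => by
      rw [Complex.sub_re, Complex.ofReal_re]
      linarith [h2 z hz]) _ (zt_mem δ)).2.1
    rw [zt_cosh, ← zt_neg] at h5
    simp only [Complex.sub_re, Complex.ofReal_re] at h5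
    rw [h3, (h1 δ).1, (h1 (-δ)).1, ← sub_eq_add_neg] at h5
    linarith

end Helper86.PM
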